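import Pool.Agent.H91.WOH

set_option autoImplicit false

open H91.WOH in
theorem Pool.Agent.Results.MP_140fc6_an.FinitePointWOH.result :
    ∀ (X : Type*) [NormedAddCommGroup X] [NormedSpace ℝ X] [CompleteSpace X]
    [Nontrivial X], WeakOcta X ↔ PropP X :=
  main
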